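import Mathlib

set_option autoImplicit false

/-!
Simple infinite-dimensional noncommutative Jordan algebras satisfying `([x,y],y,y) = 0` that are neither alternative nor
Jordan, over every field of characteristic different from two.

For a field `K` let `C(K) = K 1 + V + W` with `V = W = K³` and products (for `u, v` in `V` and `p, q` in `W`)
`u v = 2 u × v ∈ W`, `p q = p × q ∈ V`, `u p = p u = - u · p`. This is a form of the seven-dimensional color algebra;
it is simple, flexible and quadratic. The examples are the algebras `C(F(t))` regarded as algebras over `F`.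
-/

namespace Pool.Agent.Results.MP_52e257_al.ColorAlgebra

/-- The commutator `[x, y] = x y - y x`. -/
def comm {A : Type} [NonUnitalNonAssocRing A] (x y : A) : A := x * y - y * x

/-- The associator `(x, y, z) = (x y) z - x (y z)`. -/
def assoc {A : Type} [NonUnitalNonAssocRing A] (x y z : A) : A := (x * y) * z - x * (y * z)

/-- Noncommutative Jordan: flexible and `(x², y, x) = 0`. -/
def IsNoncommutativeJordan (A : Type) [NonUnitalNonAssocRing A] : Prop :=
  (∀ x y : A, assoc x y x = 0) ∧ ∀ x y : A, assoc (x * x) y x = 0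

/-- Alternative: `(x, x, y) = (y, x, x) = 0`. -/
def IsAlternative (A : Type) [NonUnitalNonAssocRing A] : Prop :=
  ∀ x y : A, assoc x x y = 0 ∧ assoc y x x = 0

/-- Jordan: commutative and `(x², y, x) = 0`. -/
def IsJordan (A : Type) [NonUnitalNonAssocRing A] : Prop :=
  (∀ x y : A, x * y = y * x) ∧ ∀ x y : A, assoc (x * x) y x = 0

/-- Simple: the product is not identically zero and the only two-sided ideals are zero and the algebra. -/
def IsSimpleAlgebra (F A : Type) [Field F] [NonUnitalNonAssocRing A] [Module F A] : Prop :=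
  (∃ x y : A, x * y ≠ 0) ∧
  ∀ I : Submodule F A, (∀ a : A, ∀ x ∈ I, a * x ∈ I ∧ x * a ∈ I) → I = ⊥ ∨ I = ⊤

/-- The algebra `C(K)`. -/
@[ext] structure C (K : Type) : Type where
  a : K
  u1 : K
  u2 : K
  u3 : K
  p1 : K
  p2 : K
  p3 : K

namespace C

section Ring

variable {K : Type} [Field K]

instance : Zero (C K) := ⟨⟨0, 0, 0, 0, 0, 0, 0⟩⟩
instance : Add (C K) := ⟨fun x y => ⟨x.a + y.a, x.u1 + y.u1, x.u2 + y.u2, x.u3 + y.u3,
  x.p1 + y.p1, x.p2 + y.p2, x.p3 + y.p3⟩⟩
instance : Neg (C K) := ⟨fun x => ⟨-x.a, -x.u1, -x.u2, -x.u3, -x.p1, -x.p2, -x.p3⟩⟩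

/-- The product `(a + u + p)(b + v + q) = (a b - u·q - p·v) + (a v + b u + p × q) + (a q + b p + 2 u × v)`. -/
instance : Mul (C K) := ⟨fun x y =>
  ⟨x.a * y.a - (x.u1 * y.p1 + x.u2 * y.p2 + x.u3 * y.p3) - (x.p1 * y.u1 + x.p2 * y.u2 + x.p3 * y.u3),
   x.a * y.u1 + y.a * x.u1 + (x.p2 * y.p3 - x.p3 * y.p2),
   x.a * y.u2 + y.a * x.u2 + (x.p3 * y.p1 - x.p1 * y.p3),
   x.a * y.u3 + y.a * x.u3 + (x.p1 * y.p2 - x.p2 * y.p1),
   x.a * y.p1 + y.a * x.p1 + 2 * (x.u2 * y.u3 - x.u3 * y.u2),
   x.a * y.p2 + y.a * x.p2 + 2 * (x.u3 * y.u1 - x.u1 * y.u3),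
   x.a * y.p3 + y.a * x.p3 + 2 * (x.u1 * y.u2 - x.u2 * y.u1)⟩⟩

theorem zero_def : (0 : C K) = ⟨0, 0, 0, 0, 0, 0, 0⟩ := rfl
theorem add_def (x y : C K) : x + y = ⟨x.a + y.a, x.u1 + y.u1, x.u2 + y.u2, x.u3 + y.u3,
  x.p1 + y.p1, x.p2 + y.p2, x.p3 + y.p3⟩ := rfl
theorem neg_def (x : C K) : -x = ⟨-x.a, -x.u1, -x.u2, -x.u3, -x.p1, -x.p2, -x.p3⟩ := rfl
theorem mul_def (x y : C K) : x * y =
  ⟨x.a * y.a - (x.u1 * y.p1 + x.u2 * y.p2 + x.u3 * y.p3) - (x.p1 * y.u1 + x.p2 * y.u2 + x.p3 * y.u3),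
   x.a * y.u1 + y.a * x.u1 + (x.p2 * y.p3 - x.p3 * y.p2),
   x.a * y.u2 + y.a * x.u2 + (x.p3 * y.p1 - x.p1 * y.p3),
   x.a * y.u3 + y.a * x.u3 + (x.p1 * y.p2 - x.p2 * y.p1),
   x.a * y.p1 + y.a * x.p1 + 2 * (x.u2 * y.u3 - x.u3 * y.u2),
   x.a * y.p2 + y.a * x.p2 + 2 * (x.u3 * y.u1 - x.u1 * y.u3),
   x.a * y.p3 + y.a * x.p3 + 2 * (x.u1 * y.u2 - x.u2 * y.u1)⟩ := rfl

instance : NonUnitalNonAssocRing (C K) where
  add_assoc x y z := by simp [add_def, add_assoc]
  zero_add x := by simp [add_def, zero_def]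
  add_zero x := by simp [add_def, zero_def]
  add_comm x y := by simp [add_def, add_comm]
  neg_add_cancel x := by ext <;> exact neg_add_cancel _
  nsmul := nsmulRec
  zsmul := zsmulRec
  left_distrib x y z := by ext <;> simp only [add_def, mul_def] <;> ring
  right_distrib x y z := by ext <;> simp only [add_def, mul_def] <;> ring
  zero_mul x := by ext <;> simp [mul_def, zero_def]
  mul_zero x := by ext <;> simp [mul_def, zero_def]

theorem sub_def (x y : C K) : x - y = ⟨x.a - y.a, x.u1 - y.u1, x.u2 - y.u2, x.u3 - y.u3,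
    x.p1 - y.p1, x.p2 - y.p2, x.p3 - y.p3⟩ := by
  rw [sub_eq_add_neg]
  ext <;> simp [add_def, neg_def, sub_eq_add_neg]

theorem flexible (x y : C K) : assoc x y x = 0 := by
  ext <;> simp only [assoc, sub_def, mul_def, zero_def] <;> ring

theorem jordan (x y : C K) : assoc (x * x) y x = 0 := by
  ext <;> simp only [assoc, sub_def, mul_def, zero_def] <;> ring

theorem comm_identity (x y : C K) : assoc (comm x y) y y = 0 := by
  ext <;> simp only [assoc, comm, sub_def, mul_def, zero_def] <;> ring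

theorem not_comm (h2 : (2 : K) ≠ 0) : ¬ ∀ x y : C K, x * y = y * x := by
  intro h
  have h1 := congrArg C.u3 (h ⟨0, 0, 0, 0, 1, 0, 0⟩ ⟨0, 0, 0, 0, 0, 1, 0⟩)
  simp only [mul_def] at h1
  apply h2
  linear_combination h1

theorem not_alternative (h2 : (2 : K) ≠ 0) : ¬ IsAlternative (C K) := by
  intro h
  have h1 := congrArg C.u1 (h ⟨0, 1, 0, 0, 1, 0, 0⟩ ⟨0, 1, 0, 0, -1, 0, 0⟩).1
  simp only [assoc, sub_def, mul_def, zero_def] at h1
  apply h2
  linear_combination -h1

/-- Two-sided (additive) ideals containing the unit element are everything. -/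
theorem top_of_one (I : AddSubgroup (C K)) (hI : ∀ a : C K, ∀ x ∈ I, a * x ∈ I ∧ x * a ∈ I)
    (k : K) (hk : k ≠ 0) (h : (⟨k, 0, 0, 0, 0, 0, 0⟩ : C K) ∈ I) (x : C K) : x ∈ I := by
  have h1 := (hI ⟨x.a * k⁻¹, x.u1 * k⁻¹, x.u2 * k⁻¹, x.u3 * k⁻¹, x.p1 * k⁻¹, x.p2 * k⁻¹, x.p3 * k⁻¹⟩ _ h).1
  convert h1 using 1
  ext <;> simp [mul_def, mul_assoc, inv_mul_cancel₀ hk, mul_comm k, mul_inv_cancel₀ hk]

/-- The symmetric product of an element of an ideal with a vector. -/
theorem sym_mem (I : AddSubgroup (C K)) (hI : ∀ a : C K, ∀ x ∈ I, a * x ∈ I ∧ x * a ∈ I) (h2 : (2 : K) ≠ 0)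
    (x : C K) (hx : x ∈ I) (v1 v2 v3 q1 q2 q3 : K) :
    (⟨-(x.u1 * q1 + x.u2 * q2 + x.u3 * q3) - (x.p1 * v1 + x.p2 * v2 + x.p3 * v3),
      x.a * v1, x.a * v2, x.a * v3, x.a * q1, x.a * q2, x.a * q3⟩ : C K) ∈ I := by
  have h := I.add_mem (hI ⟨0, v1, v2, v3, q1, q2, q3⟩ x hx).1 (hI ⟨0, v1, v2, v3, q1, q2, q3⟩ x hx).2
  have h3 := (hI ⟨2⁻¹, 0, 0, 0, 0, 0, 0⟩ _ h).1
  have h22 : (2 : K)⁻¹ * 2 = 1 := inv_mul_cancel₀ h2
  convert h3 using 1
  ext <;> simp only [mul_def, add_def]
  · linear_combination (-(-(x.u1 * q1 + x.u2 * q2 + x.u3 * q3) - (x.p1 * v1 + x.p2 * v2 + x.p3 * v3))) * h22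
  · linear_combination (-(x.a * v1)) * h22
  · linear_combination (-(x.a * v2)) * h22
  · linear_combination (-(x.a * v3)) * h22
  · linear_combination (-(x.a * q1)) * h22
  · linear_combination (-(x.a * q2)) * h22
  · linear_combination (-(x.a * q3)) * h22

/-- A nonzero vector in an ideal: the ideal is everything. -/
theorem top_of_vector (I : AddSubgroup (C K)) (hI : ∀ a : C K, ∀ x ∈ I, a * x ∈ I ∧ x * a ∈ I) (h2 : (2 : K) ≠ 0)
    (x : C K) (hx : x ∈ I) (ha : x.a = 0) (hne : x ≠ 0) (y : C K) : y ∈ I := by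
  by_cases h1 : x.u1 = 0
  · by_cases h3 : x.u2 = 0
    · by_cases h4 : x.u3 = 0
      · by_cases h5 : x.p1 = 0
        · by_cases h6 : x.p2 = 0
          · by_cases h7 : x.p3 = 0
            · exact absurd (C.ext ha h1 h3 h4 h5 h6 h7) hne
            · have := sym_mem I hI h2 x hx 0 0 1 0 0 0
              simp only [ha, h1, h3, h4, h5, h6, zero_mul, mul_zero, add_zero, zero_add, mul_one, neg_zero,
                zero_sub] at this
              exact top_of_one I hI _ (neg_ne_zero.mpr h7) this y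
          · have := sym_mem I hI h2 x hx 0 1 0 0 0 0
            simp only [ha, h1, h3, h4, h5, zero_mul, mul_zero, add_zero, zero_add, mul_one, neg_zero,
              zero_sub] at this
            exact top_of_one I hI _ (neg_ne_zero.mpr h6) this y
        · have := sym_mem I hI h2 x hx 1 0 0 0 0 0
          simp only [ha, h1, h3, h4, zero_mul, mul_zero, add_zero, mul_one, neg_zero,
            zero_sub] at this
          exact top_of_one I hI _ (neg_ne_zero.mpr h5) this y
      · have := sym_mem I hI h2 x hx 0 0 0 0 0 1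
        simp only [ha, mul_zero, add_zero, zero_mul, zero_add, mul_one, sub_zero] at this
        exact top_of_one I hI _ (neg_ne_zero.mpr h4) this y
    · have := sym_mem I hI h2 x hx 0 0 0 0 1 0
      simp only [ha, mul_zero, add_zero, zero_mul, zero_add, mul_one, sub_zero] at this
      exact top_of_one I hI _ (neg_ne_zero.mpr h3) this y
  · have := sym_mem I hI h2 x hx 0 0 0 1 0 0
    simp only [ha, mul_zero, add_zero, zero_mul, mul_one, sub_zero] at this
    exact top_of_one I hI _ (neg_ne_zero.mpr h1) this y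

theorem top_of_ne (I : AddSubgroup (C K)) (hI : ∀ a : C K, ∀ x ∈ I, a * x ∈ I ∧ x * a ∈ I) (h2 : (2 : K) ≠ 0)
    (x : C K) (hx : x ∈ I) (hne : x ≠ 0) (y : C K) : y ∈ I := by
  by_cases ha : x.a = 0
  · exact top_of_vector I hI h2 x hx ha hne y
  · -- some nonzero vector orthogonal to the vector part of `x`
    by_cases hu : x.u1 = 0
    · have := sym_mem I hI h2 x hx 0 0 0 1 0 0
      simp only [hu, mul_zero, zero_mul, add_zero, mul_one, sub_zero, neg_zero] at this
      refine top_of_vector I hI h2 _ this rfl ?_ y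
      intro h
      exact ha (congrArg C.p1 h)
    · have := sym_mem I hI h2 x hx x.u1 0 0 (-x.p1) 0 0
      refine top_of_vector I hI h2 _ this ?_ ?_ y
      · change -(x.u1 * -x.p1 + x.u2 * 0 + x.u3 * 0) - (x.p1 * x.u1 + x.p2 * 0 + x.p3 * 0) = 0
        ring
      · intro h
        exact mul_ne_zero ha hu (congrArg C.u1 h)

end Ring

section Module

variable {F K : Type} [Field F] [Field K] [Algebra F K]

instance : SMul F (C K) := ⟨fun c x => ⟨c • x.a, c • x.u1, c • x.u2, c • x.u3, c • x.p1, c • x.p2, c • x.p3⟩⟩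

theorem smul_def (c : F) (x : C K) :
    c • x = ⟨c • x.a, c • x.u1, c • x.u2, c • x.u3, c • x.p1, c • x.p2, c • x.p3⟩ := rfl

instance : Module F (C K) where
  one_smul x := by ext <;> simp [smul_def]
  mul_smul c d x := by ext <;> simp [smul_def, mul_smul]
  smul_zero c := by ext <;> simp [smul_def, zero_def]
  smul_add c x y := by ext <;> simp [smul_def, add_def]
  add_smul c d x := by ext <;> simp [smul_def, add_def, add_smul]
  zero_smul x := by ext <;> simp [smul_def, zero_def]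

instance : IsScalarTower F (C K) (C K) where
  smul_assoc c x y := by
    ext <;> simp only [smul_def, mul_def, smul_eq_mul, Algebra.smul_def] <;> ring

instance : SMulCommClass F (C K) (C K) where
  smul_comm c x y := by
    ext <;> simp only [smul_def, mul_def, smul_eq_mul, Algebra.smul_def] <;> ring

theorem simple (h2 : (2 : K) ≠ 0) : IsSimpleAlgebra F (C K) := by
  refine ⟨⟨⟨1, 0, 0, 0, 0, 0, 0⟩, ⟨1, 0, 0, 0, 0, 0, 0⟩, ?_⟩, ?_⟩
  · intro h
    have := congrArg C.a h
    simp [mul_def, zero_def] at this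
  · intro I hI
    by_cases h : I = ⊥
    · exact Or.inl h
    · right
      obtain ⟨x, hx, hne⟩ := (Submodule.ne_bot_iff I).mp h
      rw [eq_top_iff]
      intro y _
      exact top_of_ne I.toAddSubgroup hI h2 x hx hne y

/-- The embedding of the scalars. -/
def scal : K →ₗ[F] C K where
  toFun k := ⟨k, 0, 0, 0, 0, 0, 0⟩
  map_add' x y := by ext <;> simp [add_def]
  map_smul' c x := by ext <;> simp [smul_def]

theorem infinite (h : ¬ Module.Finite F K) : ¬ Module.Finite F (C K) := by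
  intro hf
  apply h
  exact Module.Finite.of_injective (scal (F := F) (K := K)) (fun x y hxy => congrArg C.a hxy)

end Module

end C

/-- Over every field `F` of characteristic different from two there is a simple infinite-dimensional noncommutative
Jordan algebra satisfying the identity `([x, y], y, y) = 0` that is neither alternative nor Jordan. -/
theorem result (F : Type) [Field F] (hF : (2 : F) ≠ 0) :
    ∃ (A : Type) (_ : NonUnitalNonAssocRing A) (_ : Module F A),
      IsScalarTower F A A ∧ SMulCommClass F A A ∧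
      IsSimpleAlgebra F A ∧ ¬ Module.Finite F A ∧
      IsNoncommutativeJordan A ∧ (∀ x y : A, assoc (comm x y) y y = 0) ∧
      ¬ IsAlternative A ∧ ¬ IsJordan A := by
  have h2 : (2 : RatFunc F) ≠ 0 := by
    intro h
    apply hF
    have h3 : algebraMap F (RatFunc F) 2 = 0 := by rw [map_ofNat]; exact h
    exact (map_eq_zero_iff _ (algebraMap F (RatFunc F)).injective).mp h3
  refine ⟨C (RatFunc F), inferInstance, inferInstance, inferInstance, inferInstance, C.simple h2,
    C.infinite ?_, ⟨C.flexible, C.jordan⟩, C.comm_identity, C.not_alternative h2, fun h => C.not_comm h2 h.1⟩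
  intro hfin
  exact RatFunc.transcendental_X (K := F) (Algebra.IsAlgebraic.isAlgebraic _)

end Pool.Agent.Results.MP_52e257_al.ColorAlgebra
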